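import Pool.Agent.R499.HT.Asm
import Pool.Agent.R499.HT.FH
import Pool.Agent.R499.HT.FOL
import Pool.Agent.R499.HT.PERF
import Pool.Agent.R567.HT.UP
import Pool.Agent.R371.HT.Hlow
import Pool.Agent.R676.HT.Nu
import Pool.Agent.R281.HT.Q
import Pool.Agent.R281.HT.Rng
import Pool.Agent.R375.HTBin
import Pool.Agent.R961.HTNorm
import Pool.Agent.R796.HT.REC
import Pool.Agent.R796.HT.BS

/-!
# MP_94b6b1_an: an amenable group (with the Haagerup property) without the heat property

Q1 is answered positively: the restricted wreath product `(ℤ/4) ≀ ℤ⁴` is countably infinite and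
amenable, hence has the Haagerup property, but does not have the heat property. In particular not
every amenable group has the heat property. The group used in the proof is
`Pool.Agent.R499.HT.W` (see `Pool/Agent/R499/HT/Defs.lean`).
-/

set_option autoImplicit false

namespace Pool.Agent.Results.MP_94b6b1_an.NoHeat

open scoped ComplexConjugate

/-- the Hilbert space `ℓ²(G)` -/
def H (G : Type) : Type := lp (fun _ : G => ℂ) 2

noncomputable instance (G : Type) : NormedAddCommGroup (H G) :=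
  lp.normedAddCommGroup (E := fun _ : G => ℂ) (p := 2)

noncomputable instance (G : Type) : NormedSpace ℂ (H G) :=
  lp.instNormedSpace (𝕜 := ℂ) (E := fun _ : G => ℂ) (p := 2)

/-- the value of `f ∈ ℓ²(G)` at `x` -/
def ev {G : Type} (f : H G) (x : G) : ℂ := (show lp (fun _ : G => ℂ) 2 from f) x

/-- the unit vector `δ_x` -/
noncomputable def delta {G : Type} (x : G) : H G :=
  open Classical in (lp.single 2 x (1 : ℂ) : lp (fun _ : G => ℂ) 2)

/-- the bounded operators on `ℓ²(G)`, with the operator norm -/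
def Op (G : Type) : Type := H G →L[ℂ] H G

noncomputable instance (G : Type) : NormedAddCommGroup (Op G) :=
  ContinuousLinearMap.toNormedAddCommGroup (E := H G) (F := H G) (σ₁₂ := RingHom.id ℂ)

noncomputable instance (G : Type) : NormedSpace ℂ (Op G) :=
  ContinuousLinearMap.toNormedSpace (𝕜' := ℂ) (E := H G) (F := H G) (σ₁₂ := RingHom.id ℂ)

/-- application of an operator to a vector -/
noncomputable def app {G : Type} (T : Op G) (f : H G) : H G := (show H G →L[ℂ] H G from T) f

open Classical in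
/-- the left regular representation: `lam g` is the bounded operator with
`(lam g f)(x) = f (g⁻¹ x)` (it exists and is unique, see `ev_lam`) -/
noncomputable def lam {G : Type} [Group G] (g : G) : Op G :=
  if h : ∃ T : Op G, ∀ (f : H G) (x : G), ev (app T f) x = ev f (g⁻¹ * x) then h.choose else 0

/-- the reduced group C*-algebra `C_r^*(G)`: the norm closure of the linear span of the `λ(g)` -/
def Cr (G : Type) [Group G] : Set (Op G) :=
  closure (Submodule.span ℂ (Set.range (lam : G → Op G)) : Set (Op G))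

/-- the Fourier coefficient `x̂(g) = ⟨x δ_e, δ_g⟩ = (x δ_e)(g)` -/
noncomputable def coef {G : Type} [Group G] (x : Op G) (g : G) : ℂ := ev (app x (delta 1)) g

/-- the Fourier series of `x` converges in operator norm as an unordered sum -/
def InCF {G : Type} [Group G] (x : Op G) : Prop := Summable fun g : G => coef x g • lam g

/-- `ND_0^+(G)`: the nonnegative functions with `d(e) = 0` which are negative definite -/
structure ND {G : Type} [Group G] (d : G → ℝ) : Prop where
  nonneg : ∀ g, 0 ≤ d g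
  one : d 1 = 0
  symm : ∀ g, d g⁻¹ = d g
  neg : ∀ (n : ℕ) (g : Fin n → G) (b : Fin n → ℂ), ∑ i, b i = 0 →
    (∑ i, ∑ j, conj (b i) * b j * (d ((g i)⁻¹ * g j) : ℂ)).re ≤ 0

/-- the Haagerup property: a proper function in `ND_0^+(G)` -/
def Haagerup (G : Type) [Group G] : Prop :=
  ∃ d : G → ℝ, ND d ∧ ∀ s : ℝ, {g : G | d g ≤ s}.Finite

/-- `M` is a bounded linear map of `C_r^*(G)` into itself with `M (λ(g)) = exp (- t d(g)) λ(g)`
(the values outside `C_r^*(G)` are irrelevant); so `M = M_t^d` -/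
structure IsHeatMap {G : Type} [Group G] (d : G → ℝ) (t : ℝ) (M : Op G → Op G) : Prop where
  maps : ∀ x ∈ Cr G, M x ∈ Cr G
  add : ∀ x ∈ Cr G, ∀ y ∈ Cr G, M (x + y) = M x + M y
  smul : ∀ (c : ℂ), ∀ x ∈ Cr G, M (c • x) = c • M x
  bdd : ∃ C : ℝ, ∀ x ∈ Cr G, ‖M x‖ ≤ C * ‖x‖
  lam : ∀ g : G, M (lam g) = ((Real.exp (-(t * d g)) : ℝ) : ℂ) • lam g

/-- the heat property: for some `d ∈ ND_0^+(G)`, for every `t > 0`, `M_t^d` maps `C_r^*(G)` into
`CF(G)` -/
def Heat (G : Type) [Group G] : Prop := ∃ d : G → ℝ, ND d ∧ ∀ t : ℝ, 0 < t →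
  ∃ M : Op G → Op G, IsHeatMap d t M ∧ ∀ x ∈ Cr G, InCF (M x)

open Classical in
/-- amenability (Følner's condition, right translations) -/
def Amenable (G : Type) [Group G] : Prop := ∀ (K : Finset G) (ε : ℝ), 0 < ε →
  ∃ F : Finset G, F.Nonempty ∧
    ∀ g ∈ K, ((F.filter fun h => h * g ∉ F).card : ℝ) ≤ ε * (F.card : ℝ)

/-! ### comparison with the definitions used in the proof -/

section compare

variable {G : Type} [Group G]

/-- `lam g` is the left translation by `g` -/
lemma ev_lam (g : G) (f : H G) (x : G) : ev (app (lam g) f) x = ev f (g⁻¹ * x) := by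
  classical
  have h : ∃ T : Op G, ∀ (f : H G) (x : G), ev (app T f) x = ev f (g⁻¹ * x) :=
    ⟨Pool.Agent.R499.HT.lam g, fun f x => Pool.Agent.R499.HT.lam_apply g f x⟩
  rw [lam, dif_pos h]
  exact h.choose_spec f x

omit [Group G] in
lemma ev_ext {f f' : H G} (h : ∀ x, ev f x = ev f' x) : f = f' := by
  have : (show lp (fun _ : G => ℂ) 2 from f) = (show lp (fun _ : G => ℂ) 2 from f') := by
    ext x
    exact h x
  exact this

lemma lam_eq (g : G) : (lam g : Op G) = (Pool.Agent.R499.HT.lam g : Op G) := by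
  have : ∀ f : H G, app (lam g) f = app (Pool.Agent.R499.HT.lam g : Op G) f := by
    intro f
    apply ev_ext
    intro x
    rw [ev_lam]
    exact (Pool.Agent.R499.HT.lam_apply g f x).symm
  exact ContinuousLinearMap.ext (f := (show H G →L[ℂ] H G from lam g))
    (g := (show H G →L[ℂ] H G from (Pool.Agent.R499.HT.lam g : Op G))) this

omit [Group G] in
lemma delta_eq (x : G) : (delta x : H G) = (Pool.Agent.R499.HT.bas G x : H G) := by
  classical
  have := (Pool.Agent.R499.HT.bas G).repr_symm_single x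
  rw [← this]
  unfold delta
  congr!

lemma mem_Cr (x : Op G) : x ∈ Cr G ↔
    (show Pool.Agent.R499.HT.L2 G →L[ℂ] Pool.Agent.R499.HT.L2 G from x) ∈
      Pool.Agent.R499.HT.Cr G := by
  have h : (lam : G → Op G) = (fun g => (Pool.Agent.R499.HT.lam g : Op G)) := funext lam_eq
  unfold Cr
  rw [h]
  exact Iff.rfl

lemma coef_eq (x : Op G) (g : G) : coef x g = Pool.Agent.R499.HT.coef
    (show Pool.Agent.R499.HT.L2 G →L[ℂ] Pool.Agent.R499.HT.L2 G from x) g := by
  unfold coef
  rw [delta_eq]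
  rfl

lemma inCF_iff (x : Op G) : InCF x ↔ Pool.Agent.R499.HT.InCF
    (show Pool.Agent.R499.HT.L2 G →L[ℂ] Pool.Agent.R499.HT.L2 G from x) := by
  unfold InCF
  have : (fun g : G => coef x g • (lam g : Op G)) = fun g : G => (Pool.Agent.R499.HT.coef
    (show Pool.Agent.R499.HT.L2 G →L[ℂ] Pool.Agent.R499.HT.L2 G from x) g) •
      (Pool.Agent.R499.HT.lam g : Op G) := by
    funext g
    rw [coef_eq, lam_eq]
    rfl
  rw [this]
  exact Iff.rfl

lemma nd_iff (d : G → ℝ) : ND d ↔ Pool.Agent.R499.HT.ND d :=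
  ⟨fun h => ⟨h.nonneg, h.one, h.symm, h.neg⟩, fun h => ⟨h.nonneg, h.one, h.symm, h.neg⟩⟩

lemma heat_imp (h : Heat G) : Pool.Agent.R499.HT.Heat G := by
  obtain ⟨d, hd, hh⟩ := h
  refine ⟨d, (nd_iff d).1 hd, ?_⟩
  intro t ht
  obtain ⟨M, hM, hCF⟩ := hh t ht
  obtain ⟨C, hC⟩ := hM.bdd
  let M0 : Pool.Agent.R499.HT.Cr G →ₗ[ℂ] Pool.Agent.R499.HT.Cr G :=
    { toFun := fun x => ⟨M x.1, (mem_Cr _).1 (hM.maps _ ((mem_Cr _).2 x.2))⟩
      map_add' := by
        intro x y
        apply Subtype.ext
        exact hM.add _ ((mem_Cr _).2 x.2) _ ((mem_Cr _).2 y.2)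
      map_smul' := by
        intro c x
        apply Subtype.ext
        exact hM.smul c _ ((mem_Cr _).2 x.2) }
  refine ⟨M0.mkContinuous C ?_, ?_, ?_⟩
  · intro x
    exact hC _ ((mem_Cr _).2 x.2)
  · intro g
    apply Subtype.ext
    have h1 := hM.lam g
    rw [lam_eq] at h1
    exact h1
  · intro x
    exact (inCF_iff _).1 (hCF _ ((mem_Cr _).2 x.2))

end compare

/-- Full answer to Q1 (yes): a countably infinite amenable group, in particular with the Haagerup
property, which does not have the heat property. -/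
theorem result : ∃ (G : Type) (_ : Group G), Countable G ∧ Infinite G ∧ Amenable G ∧
    Haagerup G ∧ ¬ Heat G := by
  obtain ⟨G, hG, h1, h2, h3, h4, h5⟩ := Pool.Agent.R499.HT.main Pool.Agent.R567.HT.up
    (Pool.Agent.R371.HT.hlow Pool.Agent.R796.HT.BS Pool.Agent.R961.HTNorm.t_NLOW
      Pool.Agent.R961.HTNorm.t_BENT)
    Pool.Agent.R499.HT.PERF.perf Pool.Agent.R796.HT.REC Pool.Agent.R676.HT.sNU
    (Pool.Agent.R281.HT.Rng.s_RNG Pool.Agent.R281.HT.s_Q Pool.Agent.R375.HTBin.main)
    Pool.Agent.R499.HT.FOL.main Pool.Agent.R499.HT.FH.main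
  refine ⟨G, hG, h1, h2, ?_, ?_, fun h => h5 (heat_imp h)⟩
  · exact h3
  · obtain ⟨d, hd, hs⟩ := h4
    exact ⟨d, (nd_iff d).2 hd, hs⟩

end Pool.Agent.Results.MP_94b6b1_an.NoHeat
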